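import Mathlib
import Pool.Agent.R718.SqNeg

/-!
# A `G`-continuous norm whose Sobolev norm of order 2 is not `G`-continuous

`G = SU(1,1) × SU(1,1)`, `V` = the trigonometric polynomials on the torus `T²` (the `K`-finite
functions on the product of the two boundary circles, on which `G` acts by Möbius transformations),
`p` = the supremum norm and `s = 2`. The norm `p_2(v) = sup |v - (v_xx + v_yy)/2|` would be
`G`-continuous only if `v_xx(1,1)` were bounded by `p_2`: a hyperbolic element of the first factor
which fixes the point `(1,1)` multiplies `v_xx(1,1)` by a constant and preserves `v_yy(1,1)`. But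
there are `v` with `v` and `v_xx + v_yy` bounded by a constant and `v_xx(1,1) = -v_yy(1,1)`
arbitrarily large (truncations of `(sin² x - sin² y) log (sin² x + sin² y)`).
-/

set_option autoImplicit false

namespace Pool.Agent.Results.MP_6a3a89_al.TorusLaplacian

open Pool.Agent.R718.Sq

/-- There are a Harish-Chandra module `M` for the real reductive group `SU(1,1) × SU(1,1)` (on the
complex vector space of the Laurent polynomials in two variables), a `G`-continuous norm `p` and a
real number `s ≥ 0` such that the Sobolev norm `p_s(v) = p(D_s v)` is not `G`-continuous. -/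
theorem result : ∃ (M : HCModule (AddMonoidAlgebra ℂ (ℤ × ℤ)))
    (p : AddMonoidAlgebra ℂ (ℤ × ℤ) → ℝ), GContinuous M p ∧
      ∃ (s : ℝ) (D : AddMonoidAlgebra ℂ (ℤ × ℤ) →ₗ[ℂ] AddMonoidAlgebra ℂ (ℤ × ℤ)),
        0 ≤ s ∧ IsSobolevOp M s D ∧ ¬ GContinuous M (fun v => p (D v)) :=
  ⟨M, fun v => ‖ι v‖, gContinuous_sup, 2, D2, zero_le_two, isSobolevOp, not_gContinuous⟩

end Pool.Agent.Results.MP_6a3a89_al.TorusLaplacian
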